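import Pool.Agent.W223.HZ.Stms

set_option autoImplicit false

namespace Pool.Agent.W60.HZ

open Pool.Agent.W223.HZ

theorem t : Pool.Agent.W223.HZ.StmtINA := by
  refine ⟨Real.exp (10 ^ 25), Real.one_le_exp (by positivity), ?_⟩
  intro S σ m hS hσ hσS hm
  have hSpos : 0 < S := lt_of_lt_of_le (Real.exp_pos _) hS
  set s := Real.log S with hs
  have hSs : S = Real.exp s := (Real.exp_log hSpos).symm
  have hs25 : (10 : ℝ) ^ 25 ≤ s := by
    rw [hs]
    exact (Real.le_log_iff_exp_le hSpos).mpr hS
  have hs10 : (10 : ℝ) ≤ s := le_trans (by norm_num) hs25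
  have hs0 : 0 < s := by linarith
  have hσ0 : 0 < σ := by linarith
  have hpow : ∀ x : ℝ, S ^ x = Real.exp (s * x) := fun x => by
    rw [Real.rpow_def_of_pos hSpos]
  have hm1 : (5 : ℝ) * σ ≤ m := by
    rw [hm]
    exact Nat.le_ceil _
  have hm2 : (m : ℝ) ≤ 7 * σ := by
    have : (m : ℝ) < 5 * σ + 1 := by
      rw [hm]
      exact Nat.ceil_lt_add_one (by positivity)
    linarith
  have hm0 : (0 : ℝ) ≤ m := Nat.cast_nonneg m
  have hσσ : σ ≤ 2 * σ ^ 2 := by nlinarith
  have hσs : σ ^ 2 * 10 ≤ σ ^ 2 * s := mul_le_mul_of_nonneg_left hs10 (by positivity)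
  have hσs' : σ * s ≤ 2 * (σ ^ 2 * s) := by nlinarith
  have hσ2 : 1 / 4 ≤ σ ^ 2 := by nlinarith
  refine ⟨500 * (σ ^ 2 * s), ?_, ?_, ?_, ?_⟩
  · nlinarith
  · nlinarith
  · -- the bound by the exponential
    have hL : S ^ ((1 : ℝ) / 11) = Real.exp (s / 11) := by
      rw [hpow]; congr 1; ring
    have hLm : (S ^ ((1 : ℝ) / 11)) ^ m = Real.exp (m * (s / 11)) := by
      rw [hL, ← Real.exp_nat_mul]
    have hm_exp : (m : ℝ) ≤ Real.exp m := by
      have := Real.add_one_le_exp (m : ℝ)
      linarith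
    have h2m_exp : ((m + m : ℕ) : ℝ) ≤ Real.exp (2 * m) := by
      have := Real.add_one_le_exp (2 * (m : ℝ))
      push_cast
      linarith
    have h400 : (400 : ℝ) ≤ Real.exp 6 := by
      have h1 := Real.exp_one_gt_d9
      have h2 : Real.exp 6 = Real.exp 1 ^ 6 := by
        rw [← Real.exp_nat_mul]; norm_num
      rw [h2]
      calc (400 : ℝ) ≤ 2.7182818283 ^ 6 := by norm_num
        _ ≤ Real.exp 1 ^ 6 := pow_le_pow_left₀ (by norm_num) h1.le 6
    have hbase : ((m + m : ℕ) : ℝ) * (400 * S * S ^ σ * (S ^ ((1 : ℝ) / 11)) ^ m) ≤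
        Real.exp (2 * m + (6 + s + s * σ + m * (s / 11))) := by
      rw [hLm, hpow σ, Real.exp_add, Real.exp_add, Real.exp_add, Real.exp_add, ← hSs]
      apply mul_le_mul h2m_exp _ (by positivity) (by positivity)
      apply mul_le_mul_of_nonneg_right _ (by positivity)
      apply mul_le_mul_of_nonneg_right _ (by positivity)
      apply mul_le_mul_of_nonneg_right h400 (by positivity)
    have hbase0 : 0 ≤ ((m + m : ℕ) : ℝ) * (400 * S * S ^ σ * (S ^ ((1 : ℝ) / 11)) ^ m) := by
      positivity
    calc (m : ℝ) * (((m + m : ℕ) : ℝ) * (400 * S * S ^ σ * (S ^ ((1 : ℝ) / 11)) ^ m)) ^ (m + m) *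
          (S ^ ((1 : ℝ) / 11)) ^ m
        ≤ Real.exp m * (Real.exp (2 * m + (6 + s + s * σ + m * (s / 11)))) ^ (m + m) *
          Real.exp (m * (s / 11)) := by
          rw [hLm] at hbase hbase0 ⊢
          apply mul_le_mul_of_nonneg_right _ (by positivity)
          apply mul_le_mul hm_exp _ (by positivity) (by positivity)
          exact pow_le_pow_left₀ hbase0 hbase _
      _ = Real.exp (m + (m + m : ℕ) * (2 * m + (6 + s + s * σ + m * (s / 11))) +
          m * (s / 11)) := by
          rw [← Real.exp_nat_mul, Real.exp_add, Real.exp_add]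
      _ ≤ Real.exp (500 * (σ ^ 2 * s)) := by
          apply Real.exp_le_exp.mpr
          push_cast
          have e1 : (m : ℝ) * m ≤ 49 * σ ^ 2 := by nlinarith
          have e2 : (m : ℝ) * s ≤ 14 * (σ ^ 2 * s) := by nlinarith
          have e3 : (m : ℝ) * (s * σ) ≤ 7 * (σ ^ 2 * s) := by
            have : (m : ℝ) * (s * σ) ≤ 7 * σ * (s * σ) :=
              mul_le_mul_of_nonneg_right hm2 (by positivity)
            nlinarith
          have e4 : (m : ℝ) * m * s ≤ 49 * (σ ^ 2 * s) := by
            have := mul_le_mul_of_nonneg_right e1 hs0.le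
            linarith
          have e5 : (m : ℝ) ≤ 14 * σ ^ 2 := by linarith
          have e6 : (m : ℝ) * m ≤ 49 * σ ^ 2 := e1
          nlinarith
  · -- the last bound
    have hsq : √(S ^ ((1 : ℝ) / 11)) = Real.exp (s / 22) := by
      rw [hpow, Real.sqrt_eq_iff_mul_self_eq (by positivity) (by positivity), ← Real.exp_add]
      congr 1
      ring
    rw [hsq]
    have hσexp : σ ≤ Real.exp (s / 2500) := by
      rw [hpow] at hσS
      have : s * (1 / 2500) = s / 2500 := by ring
      rwa [this] at hσS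
    have hσ2exp : σ ^ 2 ≤ Real.exp (s / 1250) := by
      have h1 := pow_le_pow_left₀ hσ0.le hσexp 2
      rw [← Real.exp_nat_mul] at h1
      have : ((2 : ℕ) : ℝ) * (s / 2500) = s / 1250 := by push_cast; ring
      rwa [this] at h1
    set Λ := 500 * (σ ^ 2 * s) with hΛ
    have hΛ0 : 0 < Λ := by positivity
    have hΛle : Λ ≤ 500 * (Real.exp (s / 1250) * s) := by
      rw [hΛ]
      have := mul_le_mul_of_nonneg_right hσ2exp hs0.le
      linarith
    have hbig1 : 60000 * s ≤ Real.exp (s / 2) := by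
      have h1 := Real.pow_div_factorial_le_exp (s / 2) (by positivity) 2
      have h2 : (60000 : ℝ) * s ≤ (s / 2) ^ 2 / (Nat.factorial 2 : ℕ) := by
        have : ((Nat.factorial 2 : ℕ) : ℝ) = 2 := by norm_num [Nat.factorial]
        rw [this]
        have h3 : (480000 : ℝ) ≤ s := le_trans (by norm_num) hs25
        nlinarith
      linarith
    have hbig2 : 50000000000 * s ^ 3 ≤ Real.exp (9 / 10000 * s) := by
      have h1 := Real.pow_div_factorial_le_exp (9 / 10000 * s) (by positivity) 4
      have h2 : (50000000000 : ℝ) * s ^ 3 ≤ (9 / 10000 * s) ^ 4 / (Nat.factorial 4 : ℕ) := by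
        have : ((Nat.factorial 4 : ℕ) : ℝ) = 24 := by norm_num [Nat.factorial]
        rw [this]
        have h3 : s ^ 3 * 10 ^ 25 ≤ s ^ 3 * s := mul_le_mul_of_nonneg_left hs25 (by positivity)
        have h4 : (9 / 10000 * s) ^ 4 / 24 = (9 / 10000 : ℝ) ^ 4 / 24 * (s ^ 3 * s) := by ring
        rw [h4]
        have h5 : (9 / 10000 : ℝ) ^ 4 / 24 * (s ^ 3 * 10 ^ 25) ≤
            (9 / 10000 : ℝ) ^ 4 / 24 * (s ^ 3 * s) :=
          mul_le_mul_of_nonneg_left h3 (by positivity)
        have h6 : (50000000000 : ℝ) * s ^ 3 ≤ (9 / 10000 : ℝ) ^ 4 / 24 * (s ^ 3 * 10 ^ 25) := by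
          have h7 : (0 : ℝ) < s ^ 3 := by positivity
          nlinarith
        linarith
      linarith
    have hlog : Real.log (120 * Real.exp (s / 22) * Λ) ≤ s := by
      rw [Real.log_le_iff_le_exp (by positivity)]
      calc 120 * Real.exp (s / 22) * Λ ≤
            120 * Real.exp (s / 22) * (500 * (Real.exp (s / 1250) * s)) :=
            mul_le_mul_of_nonneg_left hΛle (by positivity)
        _ = Real.exp (s / 22) * Real.exp (s / 1250) * (60000 * s) := by ring
        _ ≤ Real.exp (s / 22) * Real.exp (s / 1250) * Real.exp (s / 2) :=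
            mul_le_mul_of_nonneg_left hbig1 (by positivity)
        _ = Real.exp (s / 22 + s / 1250 + s / 2) := by rw [Real.exp_add, Real.exp_add]
        _ ≤ Real.exp s := by
            apply Real.exp_le_exp.mpr
            linarith
    have hΛ2 : Λ ^ 2 ≤ 250000 * (Real.exp (s / 625) * s ^ 2) := by
      have h1 := pow_le_pow_left₀ hΛ0.le hΛle 2
      have h2 : (500 * (Real.exp (s / 1250) * s)) ^ 2 = 250000 * (Real.exp (s / 625) * s ^ 2) := by
        have h3 : Real.exp (s / 625) = Real.exp (s / 1250) ^ 2 := by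
          rw [← Real.exp_nat_mul]
          congr 1
          push_cast
          ring
        rw [h3]
        ring
      rwa [h2] at h1
    rw [hpow]
    calc 200000 * Real.exp (s / 22) * Λ ^ 2 * Real.log (120 * Real.exp (s / 22) * Λ)
        ≤ 200000 * Real.exp (s / 22) * Λ ^ 2 * s :=
          mul_le_mul_of_nonneg_left hlog (by positivity)
      _ ≤ 200000 * Real.exp (s / 22) * (250000 * (Real.exp (s / 625) * s ^ 2)) * s := by
          apply mul_le_mul_of_nonneg_right _ hs0.le
          exact mul_le_mul_of_nonneg_left hΛ2 (by positivity)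
      _ = Real.exp (s / 22) * Real.exp (s / 625) * (50000000000 * s ^ 3) := by ring
      _ ≤ Real.exp (s / 22) * Real.exp (s / 625) * Real.exp (9 / 10000 * s) :=
          mul_le_mul_of_nonneg_left hbig2 (by positivity)
      _ = Real.exp (s / 22 + s / 625 + 9 / 10000 * s) := by rw [Real.exp_add, Real.exp_add]
      _ = Real.exp (s * (1 / 22 + 1 / 400)) := by
          congr 1
          ring
end Pool.Agent.W60.HZ
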